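import Pool.Agent.H467R3.PD.Final

set_option autoImplicit false

/-! Popular differences for three point matrix patterns: the case where the first matrix has
rank two, the second has rank one, and the difference has rank two. -/

namespace Pool.Agent.Results.MP_952e97_co.CubePopular

/-- The number of `x ∈ A` with `x + M₁ n ∈ A` and `x + M₂ n ∈ A`. -/
def copies (M₁ M₂ : Matrix (Fin 2) (Fin 2) ℤ) (A : Finset (Fin 2 → ℤ)) (n : Fin 2 → ℤ) : ℕ :=
  (A.filter fun x => x + M₁.mulVec n ∈ A ∧ x + M₂.mulVec n ∈ A).card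

/-- The pair `(M₁, M₂)` has `α³` popular differences. -/
def HasCubePopularDifferences (M₁ M₂ : Matrix (Fin 2) (Fin 2) ℤ) : Prop :=
  ∀ α : ℝ, 0 < α → ∀ ε : ℝ, 0 < ε → ∃ N₀ : ℕ, ∀ N : ℕ, N₀ ≤ N →
    ∀ A : Finset (Fin 2 → ℤ), (∀ x ∈ A, ∀ i, 1 ≤ x i ∧ x i ≤ (N : ℤ)) →
      α * (N : ℝ) ^ 2 ≤ (A.card : ℝ) →
      ∃ n : Fin 2 → ℤ, M₁.mulVec n ≠ 0 ∧ M₂.mulVec n ≠ 0 ∧
        (α ^ 3 - ε) * (N : ℝ) ^ 2 < (copies M₁ M₂ A n : ℝ)

lemma det_ne_zero_of_rank (M : Matrix (Fin 2) (Fin 2) ℤ)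
    (h : (M.map (Int.cast : ℤ → ℚ)).rank = 2) : M.det ≠ 0 := by
  intro h0
  have h1 : (M.map (Int.cast : ℤ → ℚ)).det = 0 := by
    rw [Matrix.det_fin_two] at h0 ⊢
    simp only [Matrix.map_apply]
    exact_mod_cast h0
  obtain ⟨v, hv, hv2⟩ := Matrix.exists_mulVec_eq_zero_iff.2 h1
  have h2 := LinearMap.finrank_range_add_finrank_ker (M.map (Int.cast : ℤ → ℚ)).mulVecLin
  have h3 : Module.finrank ℚ (Fin 2 → ℚ) = 2 := by simp
  rw [h3] at h2
  have h4 : Module.finrank ℚ (LinearMap.range (M.map (Int.cast : ℤ → ℚ)).mulVecLin) = 2 := h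
  have h5 : Module.finrank ℚ (LinearMap.ker (M.map (Int.cast : ℤ → ℚ)).mulVecLin) = 0 := by
    omega
  rw [Submodule.finrank_eq_zero] at h5
  apply hv
  have h6 : v ∈ LinearMap.ker (M.map (Int.cast : ℤ → ℚ)).mulVecLin := by
    rw [LinearMap.mem_ker]; exact hv2
  rw [h5] at h6
  simpa using h6

/-- Every pair of `2 × 2` integer matrices with `rank M₁ = 2`, `rank M₂ = 1` and
`rank (M₂ - M₁) = 2` has `α³` popular differences. -/
theorem result (M₁ M₂ : Matrix (Fin 2) (Fin 2) ℤ)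
    (h₁ : (M₁.map (Int.cast : ℤ → ℚ)).rank = 2)
    (h₂ : (M₂.map (Int.cast : ℤ → ℚ)).rank = 1)
    (h₃ : ((M₂ - M₁).map (Int.cast : ℤ → ℚ)).rank = 2) :
    HasCubePopularDifferences M₁ M₂ := by
  have d1 := det_ne_zero_of_rank M₁ h₁
  have d3 := det_ne_zero_of_rank (M₂ - M₁) h₃
  have d3' : (M₁ - M₂).det ≠ 0 := by
    have e : (M₁ - M₂).det = (M₂ - M₁).det := by
      rw [Matrix.det_fin_two, Matrix.det_fin_two]
      simp only [Matrix.sub_apply]
      ring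
    rw [e]; exact d3
  have d2 : M₂ ≠ 0 := by
    intro h
    rw [h] at h₂
    have : ((0 : Matrix (Fin 2) (Fin 2) ℤ).map (Int.cast : ℤ → ℚ)) = 0 := by
      ext i j; simp
    rw [this, Matrix.rank_zero] at h₂
    exact absurd h₂ (by norm_num)
  intro α hα ε hε
  exact Pool.Agent.H467R3.PD.main M₁ M₂ d1 d3' d2 α ε hα hε

end Pool.Agent.Results.MP_952e97_co.CubePopular
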